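import Pool.Agent.Run7.h670.MY.StmD

/-!
# Project MY of helper670: piece D_STEP
-/

set_option autoImplicit false

open MeasureTheory Set
open scoped ENNReal RealInnerProductSpace

namespace Pool.Agent.Run7.h742.MY

open Pool.Agent.Run7.h670.MY

/-- an isometry onto the orthogonal complement of `g` -/
theorem exists_iso (n : ℕ) (g : V (n + 1)) (hg : g ≠ 0) :
    ∃ S : V n →ₗᵢ[ℝ] V (n + 1), ∀ v : V (n + 1),
      ‖ContinuousLinearMap.adjoint S.toContinuousLinearMap v‖ ^ 2 =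
        ‖v‖ ^ 2 - ⟪v, g⟫ ^ 2 / ‖g‖ ^ 2 := by
  classical
  haveI : Fact (Module.finrank ℝ (V (n + 1)) = n + 1) := ⟨by simp⟩
  let b := OrthonormalBasis.fromOrthogonalSpanSingleton (𝕜 := ℝ) n hg
  let K : Submodule ℝ (V (n + 1)) := (Submodule.span ℝ {g})ᗮ
  let S : V n →ₗᵢ[ℝ] V (n + 1) := K.subtypeₗᵢ.comp b.repr.symm.toLinearIsometry
  refine ⟨S, fun v => ?_⟩
  have hgn : ‖g‖ ≠ 0 := norm_ne_zero_iff.2 hg
  have hg2 : ‖g‖ ^ 2 ≠ 0 := pow_ne_zero 2 hgn
  set T := ContinuousLinearMap.adjoint S.toContinuousLinearMap with hT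
  have hTg : T g = 0 := by
    refine ext_inner_right ℝ fun y => ?_
    rw [ContinuousLinearMap.adjoint_inner_left, inner_zero_left]
    have h1 : (b.repr.symm y : V (n + 1)) ∈ K := (b.repr.symm y).2
    exact Submodule.mem_orthogonal_singleton_iff_inner_right.1 h1
  have hTS : ∀ x, T (S x) = x := by
    intro x
    refine ext_inner_right ℝ fun y => ?_
    rw [ContinuousLinearMap.adjoint_inner_left]
    exact S.inner_map_map x y
  set s : ℝ := ⟪v, g⟫ / ‖g‖ ^ 2 with hs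
  have hmem : v - s • g ∈ K := by
    refine Submodule.mem_orthogonal_singleton_iff_inner_right.2 ?_
    rw [inner_sub_right, inner_smul_right, real_inner_self_eq_norm_sq, real_inner_comm, hs]
    field_simp
    ring
  obtain ⟨x, hx⟩ : ∃ x, S x = v - s • g := ⟨b.repr ⟨v - s • g, hmem⟩, by simp [S]⟩
  have hTv : T v = x := by
    calc T v = T (S x + s • g) := by
          rw [hx]
          congr 1
          abel
      _ = x := by rw [map_add, map_smul, hTg, smul_zero, add_zero, hTS]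
  rw [hTv, ← S.norm_map x, hx, norm_sub_sq_real, inner_smul_right, norm_smul, mul_pow,
    Real.norm_eq_abs, sq_abs, hs]
  field_simp
  ring

/-- the kernel -/
noncomputable def FF {n : ℕ} (g x y : V (n + 1)) : ℝ≥0∞ :=
  ENNReal.ofReal (Real.exp (-‖g‖ ^ 2) * (‖g‖ ^ 2 * ‖x - y‖ ^ 2 - ⟪x - y, g⟫ ^ 2)⁻¹)

theorem FF_meas {n : ℕ} :
    Measurable fun z : V (n + 1) × V (n + 1) × V (n + 1) => FF z.1 z.2.1 z.2.2 := by
  unfold FF
  refine ENNReal.measurable_ofReal.comp (Measurable.mul ?_ (Measurable.inv ?_))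
  · exact (by fun_prop : Continuous fun z : V (n + 1) × V (n + 1) × V (n + 1) =>
      Real.exp (-‖z.1‖ ^ 2)).measurable
  · exact (by fun_prop : Continuous fun z : V (n + 1) × V (n + 1) × V (n + 1) =>
      ‖z.1‖ ^ 2 * ‖z.2.1 - z.2.2‖ ^ 2 - ⟪z.2.1 - z.2.2, z.1⟫ ^ 2).measurable

theorem en_map {n : ℕ} (μ : Measure (V (n + 1))) [IsFiniteMeasure μ] (g : V (n + 1)) (hg : g ≠ 0)
    (S : V n →ₗᵢ[ℝ] V (n + 1)) (hS : ∀ v : V (n + 1),
      ‖ContinuousLinearMap.adjoint S.toContinuousLinearMap v‖ ^ 2 =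
        ‖v‖ ^ 2 - ⟪v, g⟫ ^ 2 / ‖g‖ ^ 2) :
    ENNReal.ofReal (Real.exp (-‖g‖ ^ 2) * (‖g‖ ^ 2)⁻¹) *
      en (μ.map (ContinuousLinearMap.adjoint S.toContinuousLinearMap)) =
      ∫⁻ x, ∫⁻ y, FF g x y ∂μ ∂μ := by
  set T := ContinuousLinearMap.adjoint S.toContinuousLinearMap with hT
  have hTm : Measurable T := T.continuous.measurable
  have hk : Measurable fun z : V n × V n => ENNReal.ofReal (‖z.1 - z.2‖ ^ 2)⁻¹ :=
    ENNReal.measurable_ofReal.comp (Measurable.inv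
      (by fun_prop : Continuous fun z : V n × V n => ‖z.1 - z.2‖ ^ 2).measurable)
  have hgn : ‖g‖ ≠ 0 := norm_ne_zero_iff.2 hg
  have e1 : en (μ.map T) = ∫⁻ x, ∫⁻ y, ENNReal.ofReal (‖T x - T y‖ ^ 2)⁻¹ ∂μ ∂μ := by
    unfold en
    rw [lintegral_map (Measurable.lintegral_prod_right' hk) hTm]
    refine lintegral_congr fun x => ?_
    exact lintegral_map (hk.comp (measurable_const.prodMk measurable_id)) hTm
  rw [e1, ← lintegral_const_mul']
  · refine lintegral_congr fun x => ?_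
    rw [← lintegral_const_mul']
    · refine lintegral_congr fun y => ?_
      unfold FF
      rw [← ENNReal.ofReal_mul (by positivity), ← map_sub, hS (x - y)]
      congr 1
      rw [mul_assoc, ← mul_inv]
      congr 2
      field_simp
    · exact ENNReal.ofReal_ne_top
  · exact ENNReal.ofReal_ne_top

theorem swap3 {α β : Type} [MeasurableSpace α] [MeasurableSpace β] (ν : Measure α)
    (μ : Measure β) [SFinite ν] [SFinite μ] (F : α → β → β → ℝ≥0∞)
    (hF : Measurable fun z : α × β × β => F z.1 z.2.1 z.2.2) :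
    ∫⁻ g, ∫⁻ x, ∫⁻ y, F g x y ∂μ ∂μ ∂ν = ∫⁻ x, ∫⁻ y, ∫⁻ g, F g x y ∂ν ∂μ ∂μ := by
  have h2 : Measurable fun z : (α × β) × β => F z.1.1 z.1.2 z.2 :=
    hF.comp ((measurable_fst.comp measurable_fst).prodMk
      ((measurable_snd.comp measurable_fst).prodMk measurable_snd))
  have h1 : Measurable fun z : α × β => ∫⁻ y, F z.1 z.2 y ∂μ := h2.lintegral_prod_right'
  rw [lintegral_lintegral_swap (f := fun g x => ∫⁻ y, F g x y ∂μ) h1.aemeasurable]
  refine lintegral_congr fun x => ?_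
  have h4 : Measurable fun z : α × β => F z.1 x z.2 :=
    hF.comp (measurable_fst.prodMk (measurable_const.prodMk measurable_snd))
  rw [lintegral_lintegral_swap (f := fun g y => F g x y) h4.aemeasurable]

theorem meas3 {α β : Type} [MeasurableSpace α] [MeasurableSpace β]
    (μ : Measure β) [SFinite μ] (F : α → β → β → ℝ≥0∞)
    (hF : Measurable fun z : α × β × β => F z.1 z.2.1 z.2.2) :
    Measurable fun g => ∫⁻ x, ∫⁻ y, F g x y ∂μ ∂μ := by
  have h2 : Measurable fun z : (α × β) × β => F z.1.1 z.1.2 z.2 :=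
    hF.comp ((measurable_fst.comp measurable_fst).prodMk
      ((measurable_snd.comp measurable_fst).prodMk measurable_snd))
  have h1 : Measurable fun z : α × β => ∫⁻ y, F z.1 z.2 y ∂μ := h2.lintegral_prod_right'
  exact h1.lintegral_prod_right'

theorem const3 {β : Type} [MeasurableSpace β] (μ : Measure β) [SFinite μ] (k : β → β → ℝ≥0∞)
    (hk : Measurable fun z : β × β => k z.1 z.2) (C : ℝ≥0∞) :
    ∫⁻ x, ∫⁻ y, C * k x y ∂μ ∂μ = C * ∫⁻ x, ∫⁻ y, k x y ∂μ ∂μ := by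
  have h1 : Measurable fun x => ∫⁻ y, k x y ∂μ := hk.lintegral_prod_right'
  rw [← lintegral_const_mul _ h1]
  refine lintegral_congr fun x => ?_
  exact lintegral_const_mul _ (hk.comp (measurable_const.prodMk measurable_id))

theorem kmeas {n : ℕ} :
    Measurable fun z : V (n + 1) × V (n + 1) => ENNReal.ofReal (‖z.1 - z.2‖ ^ 2)⁻¹ :=
  ENNReal.measurable_ofReal.comp (Measurable.inv
    (by fun_prop : Continuous fun z : V (n + 1) × V (n + 1) => ‖z.1 - z.2‖ ^ 2).measurable)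

theorem FF_int (hROT : D_ROT) {n : ℕ} (hn : 3 ≤ n) (x y : V (n + 1)) :
    ∫⁻ g : V (n + 1), FF g x y =
      ENNReal.ofReal √Real.pi * KK n * ENNReal.ofReal (‖x - y‖ ^ 2)⁻¹ := by
  rcases eq_or_ne (x - y) 0 with h0 | h0
  · unfold FF
    rw [h0]
    simp
  · have h5 := hROT n (by omega) (x - y) h0
    unfold FF
    rw [h5]
    ring

theorem hswap (hROT : D_ROT) {n : ℕ} (hn : 3 ≤ n) (μ : Measure (V (n + 1))) [IsFiniteMeasure μ] :
    ∫⁻ g : V (n + 1), ∫⁻ x, ∫⁻ y, FF g x y ∂μ ∂μ =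
      ENNReal.ofReal √Real.pi * KK n * en μ := by
  rw [swap3 volume μ FF FF_meas]
  unfold en
  rw [← const3 μ (fun x y => ENNReal.ofReal (‖x - y‖ ^ 2)⁻¹) kmeas]
  refine lintegral_congr fun x => lintegral_congr fun y => ?_
  exact FF_int hROT hn x y

/-- the weight -/
noncomputable def WW {n : ℕ} (g : V (n + 1)) : ℝ≥0∞ :=
  ENNReal.ofReal (Real.exp (-‖g‖ ^ 2) * (‖g‖ ^ 2)⁻¹)

theorem WW_meas {n : ℕ} : Measurable (WW (n := n)) :=
  ENNReal.measurable_ofReal.comp (Measurable.mul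
    (by fun_prop : Continuous fun g : V (n + 1) => Real.exp (-‖g‖ ^ 2)).measurable
    (Measurable.inv (by fun_prop : Continuous fun g : V (n + 1) => ‖g‖ ^ 2).measurable))

theorem WW_int (hKK : D_KK) {n : ℕ} (hn : 3 ≤ n) :
    ∫⁻ g : V (n + 1), WW g = ENNReal.ofReal (2 * √Real.pi ^ (n + 1) / ((n : ℝ) - 1)) := by
  have h := hKK (n + 1) (by omega)
  unfold KK at h
  have h1 : ∫⁻ g : V (n + 1), WW g =
      ∫⁻ y : V (n + 1), ENNReal.ofReal (Real.exp (-‖y‖ ^ 2) * (‖y‖ ^ 2)⁻¹) := rfl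
  rw [h1, h]
  congr 2
  push_cast
  ring

theorem strict {α : Type} [MeasurableSpace α] (ν : Measure α) (hν : ν ≠ 0) (W E : α → ℝ≥0∞)
    (hW : Measurable W) (hE : Measurable E) (C : ℝ≥0∞) (hWt : ∫⁻ g, W g ∂ν ≠ ∞) (hC : C ≠ ∞)
    (h : ∀ᵐ g ∂ν, W g * C < E g) : (∫⁻ g, W g ∂ν) * C < ∫⁻ g, E g ∂ν := by
  rw [← lintegral_mul_const _ hW]
  refine lintegral_strict_mono hν hE.aemeasurable ?_ h
  rw [lintegral_mul_const _ hW]
  exact ENNReal.mul_ne_top hWt hC

theorem t_D_STEP : D_KK → D_ROT → D_STEP := by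
  intro hKK hROT n hn μ hμ
  by_contra hcon
  push Not at hcon
  obtain ⟨c, hc⟩ : ∃ c : ℝ≥0∞, c = ENNReal.ofReal (((n : ℝ) - 1) / ((n : ℝ) - 2)) := ⟨_, rfl⟩
  rw [← hc] at hcon
  have hn' : (3 : ℝ) ≤ n := by exact_mod_cast hn
  have hlt : ∀ g : V (n + 1), g ≠ 0 → WW g * (c * en μ) < ∫⁻ x, ∫⁻ y, FF g x y ∂μ ∂μ := by
    intro g hg
    obtain ⟨S, hS⟩ := exists_iso n g hg
    rw [← en_map μ g hg S hS]
    have hgn : 0 < ‖g‖ := norm_pos_iff.2 hg
    have hW0 : WW g ≠ 0 := by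
      unfold WW
      rw [ne_eq, ENNReal.ofReal_eq_zero, not_le]
      positivity
    have hWt : WW g ≠ ∞ := ENNReal.ofReal_ne_top
    exact (ENNReal.mul_lt_mul_iff_right hW0 hWt).2 (hcon S)
  have hfin : c * en μ ≠ ∞ := by
    have hne : (EuclideanSpace.single 0 1 : V (n + 1)) ≠ 0 := by simp
    obtain ⟨S, hS⟩ := exists_iso n _ hne
    exact ((hcon S).trans_le le_top).ne
  have h8 := strict (volume : Measure (V (n + 1))) (NeZero.ne _) WW
    (fun g => ∫⁻ x, ∫⁻ y, FF g x y ∂μ ∂μ) WW_meas (meas3 μ FF FF_meas) (c * en μ)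
    (by rw [WW_int hKK hn]; exact ENNReal.ofReal_ne_top) hfin (by
      have h9 : ∀ᵐ g : V (n + 1), g ≠ 0 := by
        rw [ae_iff]
        simp
      filter_upwards [h9] with g hg using hlt g hg)
  rw [hswap hROT hn μ, WW_int hKK hn, hKK n hn, ← mul_assoc, hc,
    ← ENNReal.ofReal_mul (by
      have : (0 : ℝ) < (n : ℝ) - 1 := by linarith
      positivity), ← ENNReal.ofReal_mul (Real.sqrt_nonneg _)] at h8
  refine absurd h8 (not_lt.2 (le_of_eq ?_))
  congr 2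
  have h10 : (n : ℝ) - 1 ≠ 0 := by linarith
  have h11 : (n : ℝ) - 2 ≠ 0 := by linarith
  field_simp
  ring

end Pool.Agent.Run7.h742.MY
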