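import Pool.Agent.Run7.h670.MY.StmD

/-!
# Project MY of helper670: piece D_COST
-/

set_option autoImplicit false

open MeasureTheory Set
open scoped ENNReal RealInnerProductSpace

namespace Pool.Agent.Run7.h742.MY

open Pool.Agent.Run7.h670.MY

theorem hh_pos (p q c s t : ℝ) (hc : 0 < c) : 0 < hh p q c s t := by
  unfold hh
  positivity

theorem hh_le (p q c s t : ℝ) (hc : 0 < c) : hh p q c s t ≤ 1 := by
  unfold hh
  rw [div_le_one (by positivity)]
  nlinarith [sq_nonneg (s - p), sq_nonneg (t - q)]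

theorem hh_cont (p q c : ℝ) (hc : 0 < c) : Continuous fun z : ℝ × ℝ => hh p q c z.1 z.2 := by
  unfold hh
  refine Continuous.div (by fun_prop) (by fun_prop) fun z => ?_
  positivity

theorem gg_nonneg (p q c s t : ℝ) : 0 ≤ gg p q c s t := le_max_left _ _

theorem gg_le (p q c s t : ℝ) (hc : 0 < c) : gg p q c s t ≤ 5 := by
  have h0 := hh_pos p q c s t hc
  have h1 := hh_le p q c s t hc
  unfold gg
  refine max_le (by norm_num) ?_
  nlinarith

theorem gg_cont (p q c : ℝ) (hc : 0 < c) : Continuous fun z : ℝ × ℝ => gg p q c z.1 z.2 := by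
  have h := hh_cont p q c hc
  unfold gg
  exact continuous_const.max ((h.sub continuous_const).mul (h.add continuous_const))

theorem t_D_COST : D_INT → D_COST := by
  intro hINT d ρ a b p q c L hρm hρ0 hρi hρ2 hc h1 hL
  set m : V d → ℝ := fun x => hh p q c ⟪a, x⟫ ⟪b, x⟫ with hm
  set G : V d → ℝ := fun x => gg p q c ⟪a, x⟫ ⟪b, x⟫ with hG
  have hm0 : ∀ x, 0 < m x := fun x => hh_pos _ _ _ _ _ hc
  have hm1 : ∀ x, m x ≤ 1 := fun x => hh_le _ _ _ _ _ hc
  have hmc : Continuous m := (hh_cont p q c hc).comp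
    (f := fun x : V d => ((⟪a, x⟫ : ℝ), (⟪b, x⟫ : ℝ))) (by fun_prop)
  have hGc : Continuous G := (gg_cont p q c hc).comp
    (f := fun x : V d => ((⟪a, x⟫ : ℝ), (⟪b, x⟫ : ℝ))) (by fun_prop)
  have hG0 : ∀ x, 0 ≤ G x := fun x => gg_nonneg _ _ _ _ _
  have hG5 : ∀ x, G x ≤ 5 := fun x => gg_le _ _ _ _ _ hc
  have hint : ∀ φ : V d → ℝ, Continuous φ → (∀ x, ‖φ x‖ ≤ 5) →
      Integrable fun x => ρ x * φ x := by
    intro φ hφ hb
    refine Integrable.mono' (hρi.norm.mul_const 5) (hρi.aestronglyMeasurable.mul hφ.aestronglyMeasurable) ?_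
    refine Filter.Eventually.of_forall fun x => ?_
    rw [norm_mul]
    exact mul_le_mul_of_nonneg_left (hb x) (norm_nonneg _)
  have hmn : ∀ x, ‖m x‖ ≤ 1 := fun x => by
    rw [Real.norm_of_nonneg (hm0 x).le]
    exact hm1 x
  have i1 : Integrable fun x => ρ x * m x := hint m hmc fun x => (hmn x).trans (by norm_num)
  have i2 : Integrable fun x => ρ x * m x ^ 2 := hint _ (hmc.pow 2) fun x => by
    rw [norm_pow]
    exact (pow_le_one₀ (norm_nonneg _) (hmn x)).trans (by norm_num)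
  have i3 : Integrable fun x => ρ x * G x := hint _ hGc fun x => by
    rw [Real.norm_of_nonneg (hG0 x)]
    exact hG5 x
  set S : ℝ := ∫ x, ρ x * (m x + m x ^ 2) with hS
  have hS1 : S = 1 + ∫ x, ρ x * m x ^ 2 := by
    rw [hS, ← h1, ← integral_add i1 i2]
    exact integral_congr_ae (Filter.Eventually.of_forall fun x => by
      simp only [hm]
      ring)
  have hSG : S + 15 / 8 ≤ ∫ x, ρ x * G x := by
    have h2 : ∫ x, (ρ x * m x ^ 2 + (ρ x * m x * (31 / 8) - ρ x * (1 / 2))) ≤ ∫ x, ρ x * G x := by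
      refine integral_mono (i2.add ((i1.mul_const _).sub (hρi.mul_const _))) i3 fun x => ?_
      show ρ x * m x ^ 2 + (ρ x * m x * (31 / 8) - ρ x * (1 / 2)) ≤ ρ x * G x
      have h3 : (m x - 1 / 8) * (m x + 4) ≤ G x := le_max_right _ _
      have h4 := mul_le_mul_of_nonneg_left h3 (hρ0 x)
      nlinarith
    have j2 : Integrable fun x => ρ x * m x * (31 / 8) := i1.mul_const _
    have j3 : Integrable fun x => ρ x * (1 / 2) := hρi.mul_const _
    have j4 : Integrable fun x => ρ x * m x * (31 / 8) - ρ x * (1 / 2) := j2.sub j3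
    rw [integral_add i2 j4, integral_sub j2 j3, integral_mul_const, integral_mul_const, h1,
      hρ2] at h2
    rw [hS1]
    linarith
  have e1 : ∫⁻ x, ENNReal.ofReal (ρ x) * ENNReal.ofReal (gg p q c ⟪a, x⟫ ⟪b, x⟫) =
      ENNReal.ofReal (∫ x, ρ x * G x) := by
    rw [ofReal_integral_eq_lintegral_ofReal i3
      (Filter.Eventually.of_forall fun x => mul_nonneg (hρ0 x) (hG0 x))]
    refine lintegral_congr fun x => ?_
    rw [ENNReal.ofReal_mul (hρ0 x)]
  change ENNReal.ofReal ((c ^ 2)⁻¹ * S) ≤ _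
  rcases eq_or_ne L ∞ with hLt | hLt
  · rw [hLt, ENNReal.mul_top (by
      rw [ne_eq, ENNReal.ofReal_eq_zero]
      norm_num)]
    exact le_top
  have hS0 : 0 ≤ S := integral_nonneg fun x => mul_nonneg (hρ0 x)
    (add_nonneg (hm0 x).le (sq_nonneg _))
  have h5 : ENNReal.ofReal (S + 15 / 8) ^ 2 ≤ L * ENNReal.ofReal (255 / 8 * c ^ 2) := by
    refine le_trans ?_ (le_trans hL ?_)
    · rw [e1]
      gcongr
    · gcongr
      exact hINT p q c hc
  set ℓ : ℝ := L.toReal with hℓ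
  have hLℓ : L = ENNReal.ofReal ℓ := (ENNReal.ofReal_toReal hLt).symm
  have hℓ0 : 0 ≤ ℓ := ENNReal.toReal_nonneg
  rw [hLℓ, ← ENNReal.ofReal_mul hℓ0, ← ENNReal.ofReal_pow (by linarith),
    ENNReal.ofReal_le_ofReal_iff (by positivity)] at h5
  rw [hLℓ, ← ENNReal.ofReal_mul (by norm_num)]
  refine ENNReal.ofReal_le_ofReal ?_
  have hc2 : 0 < c ^ 2 := by positivity
  have h6 : S ≤ 17 / 4 * (ℓ * c ^ 2) := by nlinarith [sq_nonneg (S - 15 / 8)]
  rw [inv_mul_le_iff₀ hc2]
  linarith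

end Pool.Agent.Run7.h742.MY
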